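import Pool.Agent.Lib.MP_fc2ced_ag.EMain

/-! The motives of the Deligne-Lusztig varieties of general linear and unitary groups, attached to
arbitrary sequences of elements of the Weyl group, are Schur-finite. -/

namespace Pool.Agent.Results.MP_fc2ced_ag.DeligneLusztig

open Pool.Agent.Lib.MP_fc2ced_ag.E

theorem result (k : Type) [Field k] [IsAlgClosed k] (p : ℕ) [Fact p.Prime] [CharP k p] (r : ℕ)
    [NeZero r] (n m : ℕ) (tw : Bool) (w : Fin (m + 1) → Equiv.Perm (Fin n)) :
    Algebra.Smooth k (DLRing k tw (p ^ r) w) ∧ SchurFinite k (DLRing k tw (p ^ r) w) :=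
  ⟨smooth_DLRing k p r tw w, schurFinite_DLRing p r tw w⟩

end Pool.Agent.Results.MP_fc2ced_ag.DeligneLusztig
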