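import Pool.Agent.Lib.MP_fc2ced_ag.NDrin

namespace Pool.Agent.Results.MP_fc2ced_ag.DrinfeldCover

open Pool.Agent.Lib.MP_fc2ced_ag.Naive

universe u

/-- The Drinfeld cover `det (x_i ^ (q ^ j)) ^ d = c` (the Deligne-Lusztig variety of a Coxeter
element of `GL_n` for `d = q - 1`, of `SL_n` for `d = 1`) is Schur-finite. -/
theorem result (k : Type u) [Field k] (F : Type) [Field F] [Fintype F] [Algebra F k]
    (n d : ℕ) (hn : 0 < n) (hd : (d : k) ≠ 0) (c : k) (hc : c ≠ 0) :
    SchurFinite k (MvPolynomial (Fin n) k ⧸ Ideal.span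
      {(Matrix.of fun i j : Fin n =>
        (MvPolynomial.X i : MvPolynomial (Fin n) k) ^ Fintype.card F ^ (j : ℕ)).det ^ d -
          MvPolynomial.C c}) := by
  obtain ⟨m, rfl⟩ := Nat.exists_eq_add_one_of_ne_zero hn.ne'
  have key : ∀ (O : AIC k) (x : Fin (m + 1) → O), MvPolynomial.aeval x
      (moore (Fintype.card F) (fun i => (MvPolynomial.X i : MvPolynomial (Fin (m + 1)) k)) ^ d -
        MvPolynomial.C c) = moore (Fintype.card F) x ^ d - algebraMap k O c := by
    intro O x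
    have := moore_map (MvPolynomial.aeval x : MvPolynomial (Fin (m + 1)) k →ₐ[k] O).toRingHom
      (Fintype.card F) fun i => MvPolynomial.X i
    simp only [AlgHom.toRingHom_eq_coe, RingHom.coe_coe, MvPolynomial.aeval_X] at this
    rw [map_sub, map_pow, ← this, MvPolynomial.aeval_C]
  exact schurFinite_of_hyp _ (Grow.of_inj (Z := Dr (Fintype.card F) (m + 1) d c)
    (fun O x => ⟨x.1, sub_eq_zero.1 ((key O x.1).symm.trans x.2)⟩)
    (fun O x => ⟨x.1, (key O x.1).trans (sub_eq_zero.2 x.2)⟩) (fun _ _ _ _ => rfl)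
    (fun _ _ _ _ => rfl) (fun _ _ => rfl)
    (grow_dr (Nat.pos_of_ne_zero fun h => hd (by simp [h])) hc))

end Pool.Agent.Results.MP_fc2ced_ag.DrinfeldCover
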